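import Mathlib
import Pool.Agent.Q123.Peri.Defs
import Pool.Agent.Q123.Peri.Count
import Pool.Agent.Q123.Peri.Emb

/-!
There are 3-connected toroidal graphs of arbitrarily large representativity with only linearly many
peripheral cycles.  The definitions are in `Pool.Agent.Q123.Peri.Defs`.
-/

namespace Pool.Agent.Results.MP_6bdc24_co.FewPeripheralCycles

open Q123.Peri

/-- For every `r` and every `c > 1`, for all sufficiently large `n` there is a nonplanar simple
3-connected (hence also 3-edge-connected) graph with `n` vertices which has an embedding in the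
torus of representativity at least `r`, but fewer than `c ^ n` peripheral cycles. -/
theorem result (r : ℕ) (c : ℝ) (hc : 1 < c) :
    ∃ N : ℕ, ∀ n, N ≤ n → ∃ (V : Type) (_ : Fintype V) (G : SimpleGraph V),
      Fintype.card V = n ∧ ThreeConnected G ∧ G.IsEdgeConnected 3 ∧ Nonplanar G ∧
        (∃ φ : Embedding G Torus, φ.RepresentativityAtLeast r) ∧
        ((peripheralCycles G).ncard : ℝ) < c ^ n := by
  obtain ⟨m, hm, hrm⟩ : ∃ m, 3 ≤ m ∧ r ≤ m := ⟨max 3 r, le_max_left _ _, le_max_right _ _⟩
  have hne : NeZero m := ⟨by omega⟩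
  have hlin : ∀ᶠ n : ℕ in Filter.atTop, ((2 ^ (m * m) + 3 * n : ℕ) : ℝ) < c ^ n := by
    have h1 : Filter.Tendsto (fun n : ℕ => ((n : ℝ) ^ 1 * (1 / c) ^ n)) Filter.atTop (nhds 0) :=
      tendsto_pow_const_mul_const_pow_of_abs_lt_one 1 (by
        rw [abs_of_pos (by positivity), div_lt_one (by linarith)]
        exact hc)
    have h2 : Filter.Tendsto (fun n : ℕ => ((1 / c) ^ n)) Filter.atTop (nhds 0) :=
      tendsto_pow_atTop_nhds_zero_of_lt_one (by positivity) (by
        rw [div_lt_one (by linarith)]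
        exact hc)
    have h3 : Filter.Tendsto (fun n : ℕ => (2 ^ (m * m) : ℝ) * (1 / c) ^ n +
        3 * ((n : ℝ) ^ 1 * (1 / c) ^ n)) Filter.atTop (nhds ((2 ^ (m * m) : ℝ) * 0 + 3 * 0)) :=
      (h2.const_mul _).add (h1.const_mul _)
    rw [mul_zero, mul_zero, add_zero] at h3
    have h4 := h3.eventually (gt_mem_nhds (show (0 : ℝ) < 1 by norm_num))
    filter_upwards [h4] with n hn
    have hcn : 0 < c ^ n := by positivity
    have h5 : ((2 ^ (m * m) : ℝ) + 3 * n) * (1 / c) ^ n < 1 := by
      rw [pow_one] at hn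
      linarith
    rw [one_div, inv_pow, ← div_eq_mul_inv, div_lt_one hcn] at h5
    push_cast
    exact h5
  obtain ⟨N, hN⟩ := Filter.eventually_atTop.1 hlin
  refine ⟨max N (m * m), fun n hn => ?_⟩
  obtain ⟨k, rfl⟩ : ∃ k, n = m * m + k := ⟨n - m * m, by
    have := (le_max_right N (m * m)).trans hn
    omega⟩
  have h3c : ThreeConnected (Gr m k) := threeConnected hm
  refine ⟨Vx m k, inferInstance, Gr m k, ?_, h3c, h3c.isEdgeConnected, nonplanar hm,
    ⟨emb hm, ?_⟩, ?_⟩
  · rw [Fintype.card_sum, Fintype.card_prod, ZMod.card, Fintype.card_fin]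
  · intro γ hγ hγ'
    exact le_trans (by exact_mod_cast hrm) (emb_representativity hm γ hγ hγ')
  · have h1 := ncard_peripheralCycles_le (k := k) hm
    have h2 := hN (m * m + k) ((le_max_left _ _).trans hn)
    refine lt_of_le_of_lt ?_ h2
    have : (peripheralCycles (Gr m k)).ncard ≤ 2 ^ (m * m) + 3 * (m * m + k) := by
      refine h1.trans ?_
      have : 0 ≤ m * m := Nat.zero_le _
      omega
    exact_mod_cast this

end Pool.Agent.Results.MP_6bdc24_co.FewPeripheralCycles
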